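import Pool.Agent.H30.VX.Targets

/-!
# Row T2A: at most `2 k + 1` vertices have many neighbours in the core (helper63)
-/

set_option autoImplicit false

namespace Pool.Agent.H63.VX

open Finset Pool.Agent.H48.CE Pool.Agent.H30.VR Pool.Agent.H30.VX

theorem pf_T2A (hNCC : T_NCC) (hEXT : T_EXT) : T_T2A := by
  intro V G W L k e b hNC hW he hk hb hL hc
  have key : (∀ N : ℕ, 3 ≤ N → N ≤ 2 * k + 2 → Cy G N) → HasRun k G := by
    intro h
    refine hasRun_of_cy (l := 2) fun i hi => h _ (by omega) (by omega)
  by_cases hlarge : 2 * k + 2 ≤ W.card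
  · exact key fun N h3 hN => hNCC G W e hNC (by omega) N h3 (by omega)
  · obtain ⟨L', hL', hcard⟩ := exists_subset_card_eq (s := L) (n := 2 * k + 2 - W.card)
      (by omega)
    refine key fun N h3 hN => ?_
    refine hEXT G W L' e b 0 (fun i => i.elim0) (fun i => i.elim0) (fun i => i.elim0) hNC
      (fun v hv => hL v (hL' hv)) (fun i => i.elim0) (fun i => i.elim0) (by omega) (by omega)
      ?_ N h3 ?_
    · rw [univ_eq_empty, sum_empty]
      omega
    · rw [univ_eq_empty, sum_empty]
      omega

end Pool.Agent.H63.VX
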